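import Pool.Agent.helper58.PHN.FIN

/-!
# PHN: at most `h` classes modulo `φ(n)` for each `n`
-/

set_option autoImplicit false

namespace Pool.Agent.PHN

open Finset

/-- `FIN` with `h` classes for each `n` -/
def FINH_stmt : Prop := ∀ W h : ℕ, 1 ≤ W → 1 ≤ h → ∃ N : ℕ, ∀ (r : ℕ → ℕ → ℤ) (b : ℤ) (M : ℕ),
  ∃ a : ℤ, (W : ℤ) ∣ a - b ∧ ∀ n ∈ Ioc N M, ∀ s < h, ¬ (n.totient : ℤ) ∣ r s n + a

/-- the numbers `i` with `i / h ∈ F` -/
def FINH_up (h : ℕ) (F : Finset ℕ) : Finset ℕ := (F ×ˢ range h).image fun p => p.1 * h + p.2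

theorem FINH_div (h a b : ℕ) (hb : b < h) : (a * h + b) / h = a ∧ (a * h + b) % h = b := by
  have h0 : 0 < h := by omega
  constructor
  · rw [mul_comm, Nat.mul_add_div h0, Nat.div_eq_of_lt hb, add_zero]
  · rw [mul_comm, Nat.mul_add_mod, Nat.mod_eq_of_lt hb]

theorem FINH_mem (h : ℕ) (F : Finset ℕ) (hh : 1 ≤ h) (i : ℕ) : i ∈ FINH_up h F ↔ i / h ∈ F := by
  unfold FINH_up
  rw [mem_image]
  constructor
  · rintro ⟨⟨a, b⟩, hab, rfl⟩
    rw [mem_product, mem_range] at hab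
    rw [(FINH_div h a b hab.2).1]
    exact hab.1
  · intro hi
    refine ⟨(i / h, i % h), mem_product.2 ⟨hi, mem_range.2 (Nat.mod_lt _ hh)⟩, ?_⟩
    exact Nat.div_add_mod' i h

theorem FINH_sum (h : ℕ) (F : Finset ℕ) (f : ℕ → ℝ) : ∑ i ∈ FINH_up h F, f (i / h) = h * ∑ n ∈ F, f n := by
  unfold FINH_up
  rw [sum_image]
  · rw [sum_product, mul_sum]
    refine sum_congr rfl fun a _ => ?_
    have e : ∑ b ∈ range h, f ((a * h + b) / h) = ∑ b ∈ range h, f a :=
      sum_congr rfl fun b hb => by rw [(FINH_div h a b (mem_range.1 hb)).1]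
    rw [e, sum_const, card_range, nsmul_eq_mul]
  · rintro ⟨a, b⟩ hab ⟨a', b'⟩ hab' e
    have h1 := mem_range.1 (mem_product.1 hab).2
    have h2 := mem_range.1 (mem_product.1 hab').2
    simp only at e h1 h2
    have e1 := FINH_div h a b h1
    have e2 := FINH_div h a' b' h2
    rw [e, e2.1, e2.2] at e1
    rw [e1.1, e1.2]

theorem FINH_filter (h : ℕ) (hh : 1 ≤ h) (F : Finset ℕ) (P : ℕ → Prop) [DecidablePred P] :
    (FINH_up h F).filter (fun i => P (i / h)) = FINH_up h (F.filter P) := by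
  ext i
  rw [mem_filter, FINH_mem h _ hh, FINH_mem h _ hh, mem_filter]

theorem FINH_DS (δ : ℕ → ℝ) (q0 h : ℕ) (hh : 1 ≤ h) (F : Finset ℕ) (q : ℕ) :
    DS δ q0 (fun i => (i / h).totient) (FINH_up h F) q = (h : ℝ) * (h * DS δ q0 Nat.totient F q) := by
  unfold DS
  have e := FINH_filter h hh F (fun n => lp n.totient = q)
  rw [e]
  have e2 : ∀ m : ℕ, ∑ j ∈ FINH_up h (F.filter fun n => lp n.totient = q),
      gg δ q0 m * gg δ q0 (j / h).totient * (Nat.gcd m (j / h).totient : ℝ) / (q * δ q * (m * (j / h).totient)) =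
      h * ∑ n ∈ F.filter (fun n => lp n.totient = q),
        gg δ q0 m * gg δ q0 n.totient * (Nat.gcd m n.totient : ℝ) / (q * δ q * (m * n.totient)) := fun m =>
    FINH_sum h _ (fun n => gg δ q0 m * gg δ q0 n.totient * (Nat.gcd m n.totient : ℝ) / (q * δ q * (m * n.totient)))
  simp only [e2]
  rw [FINH_sum h _ (fun k => (h : ℝ) * ∑ n ∈ F.filter (fun n => lp n.totient = q),
        gg δ q0 k.totient * gg δ q0 n.totient * (Nat.gcd k.totient n.totient : ℝ) / (q * δ q * (k.totient * n.totient))),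
    ← mul_sum]

theorem FINH (hDBB : DBB_stmt) (hC2B : C2B_stmt) (hC1B : C1B_stmt) (hABB : ABB_stmt) (hDIS : DIS_stmt) :
    FINH_stmt := by
  intro W h hW hh
  obtain ⟨k1, hk1⟩ := hDBB
  obtain ⟨k2, hk2⟩ := hC2B
  obtain ⟨k3, hk3⟩ := hC1B
  obtain ⟨k₀, hk0⟩ : ∃ k₀ : ℕ, k₀ = max (max k1 k2) (max k3 (6 * (W * h ^ 2) + 2)) := ⟨_, rfl⟩
  have a1 : k1 ≤ k₀ := by omega
  have a2 : k2 ≤ k₀ := by omega
  have a3 : k3 ≤ k₀ := by omega
  have a4 : 6 * (W * h ^ 2) + 2 ≤ k₀ := by omega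
  have hWh : W ≤ W * h ^ 2 := Nat.le_mul_of_pos_right _ (by positivity)
  have hWpos : (0 : ℝ) < W := by exact_mod_cast hW
  have hhpos : (0 : ℝ) < h := by exact_mod_cast hh
  have hh1 : (1 : ℝ) ≤ h := by exact_mod_cast hh
  obtain ⟨N, hN⟩ := hABB k₀ (1 / (4 * (W * h))) (by positivity)
  refine ⟨N, fun r b M => ?_⟩
  classical
  obtain ⟨K, hKdef⟩ : ∃ K : ℕ, K = M + 1 + k₀ := ⟨_, rfl⟩
  have hK0 : k₀ ≤ K := by omega
  have hKM : ∀ n ∈ Ioc N M, n < 2 ^ K := by
    intro n hn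
    have h1 : n < 2 ^ n := Nat.lt_two_pow_self
    have h2 : n ≤ K := by
      have := (Finset.mem_Ioc.1 hn).2
      omega
    exact h1.trans_le (Nat.pow_le_pow_right (by norm_num) h2)
  have hq4 : 4 ≤ 2 ^ k₀ := by
    have h1 : 2 ^ 2 ≤ 2 ^ k₀ := Nat.pow_le_pow_right (by norm_num) (by omega)
    simpa using h1
  have hpos : ∀ n ∈ Ioc N M, 1 ≤ n := fun n hn => by
    have := (Finset.mem_Ioc.1 hn).1
    omega
  obtain ⟨good, hgood⟩ : ∃ g : Finset ℕ, g = (Ioc N M).filter fun n =>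
    k₀ ≤ bl n ∧ (n : ℝ) ≤ YY (bl n) ∧ n.primeFactors.card ≤ RR (bl n) := ⟨_, rfl⟩
  have hgS : good ⊆ Ioc N M := by
    rw [hgood]
    exact Finset.filter_subset _ _
  have hgl : ∀ i ∈ good, 2 ^ k₀ ≤ lp i.totient := by
    intro i hi
    rw [hgood, Finset.mem_filter] at hi
    have h1 := hi.2.1
    unfold bl at h1
    refine Nat.pow_le_of_le_log ?_ h1
    intro h0
    rw [h0, Nat.log_zero_right] at h1
    omega
  let D : Sys :=
    { W := W, q0 := 2 ^ k₀, δ := dl, b := b, S := FINH_up h (Ioc N M), m := fun i => (i / h).totient,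
      c := fun i => r (i % h) (i / h), good := FINH_up h good
      W1 := hW
      Wq := by
        have h1 : k₀ < 2 ^ k₀ := Nat.lt_two_pow_self
        omega
      dpos := fun p hp => (FIN_dl p (hq4.trans hp)).1
      dhalf := fun p hp => (FIN_dl p (hq4.trans hp)).2
      mpos := fun i hi => Nat.totient_pos.2 (hpos _ ((FINH_mem h _ hh i).1 hi))
      gS := fun i hi => (FINH_mem h _ hh i).2 (hgS ((FINH_mem h _ hh i).1 hi))
      gl := fun i hi => hgl _ ((FINH_mem h _ hh i).1 hi) }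
  have hD := hDIS D (2 ^ K) (by
    intro i hi
    have h1 := hgS ((FINH_mem h _ hh i).1 hi)
    exact lt_of_le_of_lt ((FIN_lp_le _).trans (Nat.totient_le _)) (hKM _ h1)) ?_
  · obtain ⟨a, ha1, ha2⟩ := hD
    refine ⟨a, ha1, fun n hn s hs => ?_⟩
    have e := FINH_div h n s hs
    have h1 := ha2 (n * h + s) ((FINH_mem h _ hh _).2 (by rw [e.1]; exact hn))
    change ¬ ((((n * h + s) / h).totient : ℕ) : ℤ) ∣ a + r ((n * h + s) % h) ((n * h + s) / h) at h1
    rw [e.1, e.2, add_comm] at h1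
    exact h1
  · have hsd : FINH_up h (Ioc N M) \ FINH_up h good = FINH_up h (Ioc N M \ good) := by
      ext i
      rw [mem_sdiff, FINH_mem h _ hh, FINH_mem h _ hh, FINH_mem h _ hh, mem_sdiff]
    change (W : ℝ) * (∑ i ∈ FINH_up h (Ioc N M) \ FINH_up h good, gg dl (2 ^ k₀) (i / h).totient / (i / h).totient +
      ∑ q ∈ Ico (2 ^ k₀) (2 ^ K), DS dl (2 ^ k₀) (fun i => (i / h).totient) (FINH_up h good) q) < 1
    rw [hsd, FINH_sum h _ (fun n => gg dl (2 ^ k₀) n.totient / n.totient)]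
    have hDSe : ∑ q ∈ Ico (2 ^ k₀) (2 ^ K), DS dl (2 ^ k₀) (fun i => (i / h).totient) (FINH_up h good) q =
        (h : ℝ) * (h * ∑ q ∈ Ico (2 ^ k₀) (2 ^ K), DS dl (2 ^ k₀) Nat.totient good q) := by
      rw [mul_sum, mul_sum]
      exact sum_congr rfl fun q _ => FINH_DS dl (2 ^ k₀) h hh good q
    rw [hDSe]
    obtain ⟨g, hg⟩ : ∃ g : ℕ → ℝ, g = fun n => gg dl (2 ^ k₀) n.totient / n.totient := ⟨_, rfl⟩
    have hsq := FIN_tel k₀ (by omega) K hK0
    have hK1 : (0 : ℝ) ≤ 1 / (K : ℝ) := by positivity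
    -- the double sums
    have hDSb : ∑ q ∈ Ico (2 ^ k₀) (2 ^ K), DS dl (2 ^ k₀) Nat.totient good q ≤ 1 / (k₀ : ℝ) := by
      rw [FIN_blocks _ k₀ K hK0]
      have h1 : ∑ k ∈ Ico k₀ K, ∑ q ∈ Ico (2 ^ k) (2 ^ (k + 1)), DS dl (2 ^ k₀) Nat.totient good q ≤
          ∑ k ∈ Ico k₀ K, 1 / ((k : ℝ) + 1) ^ 2 := by
        refine Finset.sum_le_sum fun k hk => ?_
        have hk' := (Finset.mem_Ico.1 hk).1
        rw [Finset.sum_congr rfl fun q hq => FIN_DS dl (2 ^ k₀) good k q hq]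
        refine hk1 k (a1.trans hk') (2 ^ k₀) _ ?_
        intro n hn
        rw [Finset.mem_filter, hgood, Finset.mem_filter] at hn
        obtain ⟨⟨h2, h3, h4, h5⟩, h6⟩ := hn
        rw [h6] at h4 h5
        exact ⟨hpos n h2, h6, h4, h5⟩
      linarith
    -- the other classes
    have hSb : ∑ i ∈ Ioc N M \ good, g i ≤ 1 / (4 * ((W : ℝ) * h)) + 2 * (1 / (k₀ : ℝ)) := by
      rw [← Finset.sum_filter_add_sum_filter_not (Ioc N M \ good) (fun n => bl n < k₀) g]
      have h1 : ∑ n ∈ (Ioc N M \ good).filter (fun n => bl n < k₀), g n ≤ 1 / (4 * ((W : ℝ) * h)) := by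
        rw [hg]
        refine hN _ ?_
        intro n hn
        rw [Finset.mem_filter, Finset.mem_sdiff] at hn
        exact ⟨(Finset.mem_Ioc.1 hn.1.1).1, hn.2⟩
      have h2 : ∑ n ∈ (Ioc N M \ good).filter (fun n => ¬ bl n < k₀), g n ≤
          ∑ k ∈ Ico k₀ K, (1 / ((k : ℝ) + 1) ^ 2 + 1 / ((k : ℝ) + 1) ^ 2) := by
        rw [← Finset.sum_fiberwise_of_maps_to (t := Ico k₀ K) (g := bl)]
        · refine Finset.sum_le_sum fun k hk => ?_
          have hk' := (Finset.mem_Ico.1 hk).1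
          rw [← Finset.sum_filter_add_sum_filter_not
            (((Ioc N M \ good).filter (fun n => ¬ bl n < k₀)).filter fun n => bl n = k) (fun n => YY k < n) g]
          refine add_le_add ?_ ?_
          · rw [hg]
            refine hk3 k (a3.trans hk') (2 ^ k₀) _ ?_
            intro n hn
            simp only [Finset.mem_filter, Finset.mem_sdiff] at hn
            exact ⟨hpos n hn.1.1.1.1, hn.1.2, hn.2⟩
          · rw [hg]
            refine hk2 k (a2.trans hk') (2 ^ k₀) _ ?_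
            intro n hn
            simp only [Finset.mem_filter, Finset.mem_sdiff, not_lt] at hn
            obtain ⟨⟨⟨⟨h3, h4⟩, h5⟩, h6⟩, h7⟩ := hn
            refine ⟨hpos n h3, h6, h7, ?_⟩
            by_contra h8
            rw [not_lt] at h8
            refine h4 ?_
            rw [hgood, Finset.mem_filter]
            rw [← h6] at h7 h8
            exact ⟨h3, h5, h7, h8⟩
        · intro n hn
          rw [Finset.mem_filter, Finset.mem_sdiff] at hn
          rw [Finset.mem_Ico]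
          exact ⟨not_lt.1 hn.2, FIN_bl_lt n K (by omega) (hKM n hn.1.1)⟩
      rw [Finset.sum_add_distrib] at h2
      linarith
    have hg' : ∑ i ∈ Ioc N M \ good, gg dl (2 ^ k₀) i.totient / i.totient = ∑ i ∈ Ioc N M \ good, g i := by
      rw [hg]
    rw [hg']
    have hk0pos : (0 : ℝ) < k₀ := by
      have : 0 < k₀ := by omega
      exact_mod_cast this
    have hy0 : (0 : ℝ) ≤ 1 / (k₀ : ℝ) := by positivity
    have h3 : (W : ℝ) * (h * ∑ i ∈ Ioc N M \ good, g i +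
        h * (h * ∑ q ∈ Ico (2 ^ k₀) (2 ^ K), DS dl (2 ^ k₀) Nat.totient good q)) ≤
        (W : ℝ) * (h * (1 / (4 * ((W : ℝ) * h)) + 2 * (1 / (k₀ : ℝ))) + h * (h * (1 / (k₀ : ℝ)))) := by
      refine mul_le_mul_of_nonneg_left (add_le_add (mul_le_mul_of_nonneg_left hSb hhpos.le) ?_) hWpos.le
      exact mul_le_mul_of_nonneg_left (mul_le_mul_of_nonneg_left hDSb hhpos.le) hhpos.le
    refine lt_of_le_of_lt h3 ?_
    have h4 : (W : ℝ) * (h * (1 / (4 * ((W : ℝ) * h)) + 2 * (1 / (k₀ : ℝ))) + h * (h * (1 / (k₀ : ℝ)))) =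
        1 / 4 + (2 * (W * h) + W * h ^ 2) / k₀ := by
      field_simp
      ring
    rw [h4]
    have h5 : (2 * ((W : ℝ) * h) + W * h ^ 2) / k₀ ≤ 1 / 2 := by
      rw [div_le_iff₀ hk0pos]
      have h6 : ((6 * (W * h ^ 2) + 2 : ℕ) : ℝ) ≤ k₀ := by exact_mod_cast a4
      push_cast at h6
      have h7 : (W : ℝ) * h ≤ W * h ^ 2 := mul_le_mul_of_nonneg_left (by nlinarith) hWpos.le
      linarith
    linarith

end Pool.Agent.PHN
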