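import Pool.Agent.helper50.PHN.All
import Pool.Agent.helper50.PHN.FINH
import Mathlib.Order.Filter.Ultrafilter.Basic

/-!
# PHN: the theorem with at most `h` classes modulo `φ(n)` for each `n`
-/

set_option autoImplicit false

namespace Pool.Agent.PHN

open Finset

theorem aFINH : FINH_stmt := FINH aDBB aC2B aC1B aABB aDIS

theorem CPTH_fin (W h : ℕ) (hW : 1 ≤ W) : ∃ N : ℕ, ∀ (R : ℕ → Finset ℤ) (b : ℤ), (∀ n, (R n).card ≤ h) → ∀ M : ℕ,
    ∃ a : ℤ, (W : ℤ) ∣ a - b ∧ ∀ n ∈ Ioc N M, ∀ t ∈ R n, ¬ (n.totient : ℤ) ∣ t + a := by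
  obtain ⟨N, hN⟩ := aFINH W (h + 1) hW (by omega)
  refine ⟨N, fun R b hR M => ?_⟩
  obtain ⟨a, ha1, ha2⟩ := hN (fun s n => (R n).toList.getD s 0) b M
  refine ⟨a, ha1, fun n hn t ht => ?_⟩
  obtain ⟨s, hs, hst⟩ := List.mem_iff_getElem.1 (Finset.mem_toList.2 ht)
  have h1 : s < h + 1 := by
    have h2 : s < (R n).card := by rwa [Finset.length_toList] at hs
    have := hR n
    omega
  have h3 := ha2 n hn s h1
  simp only [List.getD_eq_getElem _ _ hs, hst] at h3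
  exact h3

theorem CPTH (W h : ℕ) (hW : 1 ≤ W) : ∃ N : ℕ, ∀ (R : ℕ → Finset ℤ) (b : ℤ), (∀ n, (R n).card ≤ h) → ∃ a : ℕ → ℤ,
    (∀ i j : ℕ, i ≤ j → (i.factorial : ℤ) ∣ a j - a i) ∧ (∀ j, W ≤ j → (W : ℤ) ∣ a j - b) ∧
      ∀ n j : ℕ, N < n → n ≤ j → ∀ t ∈ R n, ¬ (n.totient : ℤ) ∣ t + a j := by
  obtain ⟨N, hN⟩ := CPTH_fin W h hW
  refine ⟨N, fun R b hR => ?_⟩
  choose x hx1 hx2 using hN R b hR
  have key : ∀ i : ℕ, ∃ c : ℤ, ∀ᶠ M in (Filter.hyperfilter ℕ : Filter ℕ), (i.factorial : ℤ) ∣ x M - c := by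
    intro i
    have hi : (0 : ℤ) < (i.factorial : ℤ) := by exact_mod_cast i.factorial_pos
    have h1 : ∀ᶠ M in (Filter.hyperfilter ℕ : Filter ℕ),
        ∃ c ∈ Set.Ico (0 : ℤ) (i.factorial : ℤ), (i.factorial : ℤ) ∣ x M - c :=
      Filter.Eventually.of_forall fun M =>
        ⟨x M % (i.factorial : ℤ), ⟨Int.emod_nonneg _ hi.ne', Int.emod_lt_of_pos _ hi⟩, Int.dvd_self_sub_emod⟩
    obtain ⟨c, _, hc⟩ := (Ultrafilter.eventually_exists_mem_iff (Set.finite_Ico _ _)).1 h1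
    exact ⟨c, hc⟩
  choose a ha using key
  refine ⟨a, ?_, ?_, ?_⟩
  · intro i j hij
    obtain ⟨M, h1, h2⟩ := ((ha i).and (ha j)).exists
    have h3 : (i.factorial : ℤ) ∣ (j.factorial : ℤ) := by exact_mod_cast Nat.factorial_dvd_factorial hij
    have h4 := dvd_sub h1 (h3.trans h2)
    have h5 : x M - a i - (x M - a j) = a j - a i := by ring
    rwa [h5] at h4
  · intro j hj
    obtain ⟨M, h1⟩ := (ha j).exists
    have h3 : (W : ℤ) ∣ (j.factorial : ℤ) := by exact_mod_cast Nat.dvd_factorial hW hj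
    have h4 := dvd_sub (hx1 M) (h3.trans h1)
    have h5 : x M - b - (x M - a j) = a j - b := by ring
    rwa [h5] at h4
  · intro n j hn hnj t ht hd
    have hcof : ∀ᶠ M in (Filter.hyperfilter ℕ : Filter ℕ), n ≤ M := by
      have h6 : ∀ᶠ M in (Filter.atTop : Filter ℕ), n ≤ M := Filter.eventually_ge_atTop n
      rw [← Nat.cofinite_eq_atTop] at h6
      exact Filter.hyperfilter_le_cofinite h6
    obtain ⟨M, h1, h2⟩ := ((ha j).and hcof).exists
    have hn0 : 0 < n := by omega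
    have h3 : (n.totient : ℤ) ∣ (j.factorial : ℤ) := by
      exact_mod_cast Nat.dvd_factorial (Nat.totient_pos.2 hn0) ((Nat.totient_le n).trans hnj)
    apply hx2 M n (Finset.mem_Ioc.2 ⟨hn, h2⟩) t ht
    have h4 := dvd_add hd (h3.trans h1)
    have h5 : t + a j + (x M - a j) = t + x M := by ring
    rwa [h5] at h4

end Pool.Agent.PHN
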