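import Pool.Agent.helper50.PHN.Spec

/-!
# Row phn:CLM (MP_f10000_nt): the mean of the indicator function of a class
-/

set_option autoImplicit false

namespace Pool.Agent.PHN

open Finset

theorem CLM_block (n : ℕ) (c : ℤ) (hn : 1 ≤ n) :
    ∑ i ∈ range n, (if (n : ℤ) ∣ (i : ℤ) + c then (1 : ℝ) else 0) = 1 := by
  have hn0 : (0 : ℤ) < n := by exact_mod_cast hn
  have h1 : 0 ≤ (-c) % (n : ℤ) := Int.emod_nonneg _ hn0.ne'
  have h2 : (-c) % (n : ℤ) < n := Int.emod_lt_of_pos _ hn0
  have h3 : (((-c) % (n : ℤ)).toNat : ℤ) = (-c) % (n : ℤ) := Int.toNat_of_nonneg h1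
  have h5 : (n : ℤ) ∣ (-c) % (n : ℤ) + c := by
    have := Int.emod_add_mul_ediv (-c) (n : ℤ)
    exact ⟨-((-c) / (n : ℤ)), by linarith⟩
  rw [Finset.sum_eq_single (((-c) % (n : ℤ)).toNat)]
  · rw [h3, if_pos h5]
  · intro i hi hne
    rw [if_neg]
    intro hd
    apply hne
    have hi' : (i : ℤ) < n := by exact_mod_cast Finset.mem_range.1 hi
    have h6 : (n : ℤ) ∣ (i : ℤ) - (-c) % (n : ℤ) := by
      have := Int.dvd_sub hd h5
      have e : (i : ℤ) + c - ((-c) % (n : ℤ) + c) = (i : ℤ) - (-c) % (n : ℤ) := by ring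
      rwa [e] at this
    have h7 : (i : ℤ) - (-c) % (n : ℤ) = 0 := by
      apply Int.eq_zero_of_abs_lt_dvd h6
      rw [abs_lt]
      constructor <;> linarith [Int.natCast_nonneg i]
    omega
  · intro h
    exfalso
    apply h
    rw [Finset.mem_range]
    omega

theorem CLM_sum (n s : ℕ) (a : ℤ) (hn : 1 ≤ n) :
    ∑ x ∈ range (n * s), ind n a (x : ℤ) = s := by
  induction s with
  | zero => simp
  | succ s ih =>
    have e : n * (s + 1) = n * s + n := by ring
    rw [e, Finset.sum_range_add, ih]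
    have h : ∑ x ∈ range n, ind n a ((n * s + x : ℕ) : ℤ) = 1 := by
      have h1 := CLM_block n ((n : ℤ) * s + a) hn
      rw [← h1]
      refine Finset.sum_congr rfl fun x _ => ?_
      unfold ind
      have e2 : ((n * s + x : ℕ) : ℤ) + a = (x : ℤ) + ((n : ℤ) * s + a) := by
        push_cast
        ring
      rw [e2]
    rw [h]
    push_cast
    ring

theorem CLM : CLM_stmt := by
  intro T n a hT hn
  obtain ⟨s, rfl⟩ := hn
  have hn1 : 1 ≤ n := by
    rcases Nat.eq_zero_or_pos n with h | h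
    · rw [h, zero_mul] at hT
      omega
    · exact h
  have hs1 : 1 ≤ s := by
    rcases Nat.eq_zero_or_pos s with h | h
    · rw [h, mul_zero] at hT
      omega
    · exact h
  unfold mu
  rw [CLM_sum n s a hn1]
  have h1 : (n : ℝ) ≠ 0 := by exact_mod_cast (by omega : n ≠ 0)
  have h2 : (s : ℝ) ≠ 0 := by exact_mod_cast (by omega : s ≠ 0)
  push_cast
  field_simp

end Pool.Agent.PHN
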