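import Pool.Agent.helper50.PHN.Spec

set_option autoImplicit false

namespace Pool.Agent.PHN

open Finset

theorem STA_iter (h : ℤ → ℝ) (u : ℤ) (hu : ∀ x, h (x + u) = h x) (t : ℕ) (x : ℤ) : h (x + t * u) = h x := by
  induction t with
  | zero => simp
  | succ t ih =>
    have e : x + ((t + 1 : ℕ) : ℤ) * u = (x + t * u) + u := by push_cast; ring
    rw [e, hu, ih]

theorem STA (hALP : ALP_stmt) (hMAV : MAV_stmt) (hUUD : UUD_stmt) : STA_stmt := by
  intro D q w hq hqq hw
  obtain ⟨hB, hAper, hBinv, hAinv, hA⟩ := hALP D q hq hqq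
  obtain ⟨hT1, -, -, -, -, -⟩ := hUUD.2 D
  obtain ⟨hQu, -, -⟩ := hUUD.1 D.T q hT1 hq
  have hδ0 := D.dpos q hqq
  have hδ1 := D.dhalf q hqq
  have hB01 : ∀ x, 0 ≤ D.iB q x ∧ D.iB q x ≤ 1 := by
    intro x
    rcases (hB x).2 with h | h <;> rw [h] <;> norm_num
  refine ⟨fun x => ?_, fun x => ?_, fun p hp hqp x => ?_, fun f hf hfu => ?_⟩
  · unfold Sys.nw
    have hw0 := hw.nonneg x
    split_ifs with h
    · have h1 : 0 < 1 - D.al q x := by linarith
      obtain ⟨b0, b1⟩ := hB01 x
      constructor
      · exact div_nonneg (mul_nonneg hw0 (by linarith)) h1.le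
      · rw [div_le_iff₀ h1]
        have h2 : 1 ≤ (1 + 2 * D.δ q) * (1 - D.al q x) := by nlinarith
        have h3 : w x * (1 - D.iB q x) ≤ w x * 1 := mul_le_mul_of_nonneg_left (by linarith) hw0
        have h4 : w x * 1 ≤ w x * ((1 + 2 * D.δ q) * (1 - D.al q x)) := mul_le_mul_of_nonneg_left h2 hw0
        calc w x * (1 - D.iB q x) ≤ w x * ((1 + 2 * D.δ q) * (1 - D.al q x)) := h3.trans h4
          _ = (1 + 2 * D.δ q) * w x * (1 - D.al q x) := by ring
    · exact ⟨hw0, by nlinarith⟩
  · unfold Sys.nw
    rw [hAper x, (hB x).1, hw.per x]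
  · unfold Sys.nw
    rw [hAinv p hp (by omega) x, hBinv p hp (by omega) x, hw.inv p hp (by omega) x]
  · obtain ⟨φ, hφ⟩ : ∃ φ : ℤ → ℝ, φ = fun x => if D.al q x ≤ D.δ q then (1 - D.iB q x) / (1 - D.al q x) else 1 := ⟨_, rfl⟩
    have e1 : (fun x => D.nw q w x * f x) = fun x => (w x * f x) * φ x := by
      funext x
      rw [hφ]
      unfold Sys.nw
      simp only
      split_ifs with h
      · ring
      · ring
    have hφper : ∀ x, φ (x + D.T) = φ x := by
      intro x
      rw [hφ]
      simp only
      rw [hAper x, (hB x).1]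
    have hgper : ∀ x, (fun x => w x * f x) (x + D.T) = (fun x => w x * f x) x := by
      intro x
      simp only
      rw [hw.per x, hf x]
    have hgu : ∀ x, (fun x => w x * f x) (x + uu D.T q) = (fun x => w x * f x) x := by
      intro x
      simp only
      rw [hw.inv q hq le_rfl x, hfu x]
    obtain ⟨-, -, h3⟩ := hMAV D.T (q ^ D.T.factorization q) (uu D.T q) (fun x => w x * f x) φ hT1 hQu hgper hφper
    rw [e1, h3 hgu]
    have hQ0 : ((q ^ D.T.factorization q : ℕ) : ℝ) ≠ 0 := by
      have : q ^ D.T.factorization q ≠ 0 := pow_ne_zero _ hq.ne_zero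
      exact_mod_cast this
    have hAV : ∀ x, AV (q ^ D.T.factorization q) (uu D.T q) φ x = 1 := by
      intro x
      have hal : ∀ t : ℕ, D.al q (x + t * (uu D.T q : ℤ)) = D.al q x := fun t =>
        STA_iter (D.al q) _ (hAinv q hq le_rfl) t x
      unfold AV
      by_cases h : D.al q x ≤ D.δ q
      · have h1 : 1 - D.al q x ≠ 0 := by
          have : 0 < 1 - D.al q x := by linarith
          exact this.ne'
        have e2 : ∑ t ∈ range (q ^ D.T.factorization q), φ (x + t * (uu D.T q : ℤ)) =
            ∑ t ∈ range (q ^ D.T.factorization q), (1 - D.iB q (x + t * (uu D.T q : ℤ))) / (1 - D.al q x) := by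
          refine sum_congr rfl fun t _ => ?_
          rw [hφ]
          simp only
          rw [hal t, if_pos h]
        rw [e2, ← sum_div, sum_sub_distrib]
        have e3 : ∑ t ∈ range (q ^ D.T.factorization q), D.iB q (x + t * (uu D.T q : ℤ)) =
            D.al q x * ((q ^ D.T.factorization q : ℕ) : ℝ) := by
          unfold Sys.al AV
          field_simp
        rw [e3]
        simp only [sum_const, card_range, nsmul_eq_mul, mul_one]
        field_simp
      · have e2 : ∑ t ∈ range (q ^ D.T.factorization q), φ (x + t * (uu D.T q : ℤ)) =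
            ∑ t ∈ range (q ^ D.T.factorization q), (1 : ℝ) := by
          refine sum_congr rfl fun t _ => ?_
          rw [hφ]
          simp only
          rw [hal t, if_neg h]
        rw [e2]
        simp only [sum_const, card_range, nsmul_eq_mul, mul_one]
        exact div_self hQ0
    congr 1
    funext x
    rw [hAV x, mul_one]

end Pool.Agent.PHN
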