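import Pool.Agent.helper50.PHN.Spec

set_option autoImplicit false

namespace Pool.Agent.PHN

open Finset

/-- the first prime power of `n` -/
def USD_T (n : ℕ) : ℕ := n.minFac ^ n.factorization n.minFac

/-- the rest -/
def USD_N (n : ℕ) : ℕ := n / USD_T n

theorem USD_split (n : ℕ) (h0 : n ≠ 0) (h1 : n ≠ 1) :
    USD_T n * USD_N n = n ∧ Nat.Coprime (USD_T n) (USD_N n) ∧ IsPrimePow (USD_T n) ∧ 1 ≤ USD_N n ∧
      (USD_N n).primeFactors.card + 1 = n.primeFactors.card := by
  have hp := Nat.minFac_prime h1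
  have hpd : n.minFac ∣ n := Nat.minFac_dvd n
  have hv : n.factorization n.minFac ≠ 0 := (hp.factorization_pos_of_dvd h0 hpd).ne'
  have e : USD_T n * USD_N n = n := Nat.ordProj_mul_ordCompl_eq_self n n.minFac
  refine ⟨e, (Nat.coprime_ordCompl hp h0).pow_left _, hp.isPrimePow.pow hv, ?_, ?_⟩
  · rcases Nat.eq_zero_or_pos (USD_N n) with h | h
    · rw [h, mul_zero] at e
      exact absurd e.symm h0
    · exact h
  · have h2 : (USD_N n).primeFactors = n.primeFactors.erase n.minFac := by
      rw [← Nat.support_factorization, ← Nat.support_factorization]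
      unfold USD_N USD_T
      rw [Nat.factorization_ordCompl, Finsupp.support_erase]
    rw [h2]
    exact card_erase_add_one (Nat.mem_primeFactors.2 ⟨hp, hpd, h0⟩)

theorem USD_prod (G : Finset ℕ) (hG : ∀ n ∈ G, n ≠ 0 ∧ n ≠ 1) :
    ∑ n ∈ G, 1 / (n.totient : ℝ) ≤ (∑ t ∈ G.image USD_T, 1 / (t.totient : ℝ)) * ∑ m ∈ G.image USD_N, 1 / (m.totient : ℝ) := by
  rw [sum_mul_sum, ← sum_product']
  have hinj : Set.InjOn (fun n => (USD_T n, USD_N n)) (G : Set ℕ) := by
    intro a ha b hb hab
    have ha' := (USD_split a (hG a ha).1 (hG a ha).2).1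
    have hb' := (USD_split b (hG b hb).1 (hG b hb).2).1
    simp only [Prod.mk.injEq] at hab
    rw [← ha', ← hb', hab.1, hab.2]
  have e : ∑ n ∈ G, 1 / (n.totient : ℝ) =
      ∑ x ∈ G.image (fun n => (USD_T n, USD_N n)), 1 / (x.1.totient : ℝ) * (1 / (x.2.totient : ℝ)) := by
    rw [sum_image hinj]
    refine sum_congr rfl fun n hn => ?_
    obtain ⟨h1, h2, -⟩ := USD_split n (hG n hn).1 (hG n hn).2
    have h3 : n.totient = (USD_T n).totient * (USD_N n).totient := by
      conv_lhs => rw [← h1]
      exact Nat.totient_mul h2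
    rw [h3, Nat.cast_mul, one_div_mul_one_div]
  rw [e]
  refine sum_le_sum_of_subset_of_nonneg ?_ (fun _ _ _ => by positivity)
  intro x hx
  obtain ⟨n, hn, rfl⟩ := mem_image.1 hx
  exact mem_product.2 ⟨mem_image_of_mem _ hn, mem_image_of_mem _ hn⟩

theorem USD (hTAU : TAU_stmt) (hPPW : PPW_stmt) : USD_stmt := by
  intro Y s
  induction s with
  | zero =>
    intro D F hY hD hF
    have hF1 : F ⊆ {1} := by
      intro n hn
      obtain ⟨h1, -, h3, -⟩ := hF n hn
      have h4 : n.primeFactors = ∅ := by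
        rw [← card_eq_zero]
        omega
      rcases Nat.primeFactors_eq_empty.1 h4 with h | h
      · omega
      · simp [h]
    rcases F.eq_empty_or_nonempty with h | ⟨n, hn⟩
    · rw [h, sum_empty]
      positivity
    · have hn1 : n = 1 := by simpa using hF1 hn
      subst hn1
      have hD1 : D = 1 := by simpa using (hF 1 hn).2.2.2
      subst hD1
      have h5 : ∑ n ∈ F, 1 / (n.totient : ℝ) ≤ ∑ n ∈ ({1} : Finset ℕ), 1 / (n.totient : ℝ) :=
        sum_le_sum_of_subset_of_nonneg hF1 (fun _ _ _ => by positivity)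
      refine h5.trans ?_
      rw [sum_singleton, hTAU.2.2.2.1 1 one_ne_zero]
      norm_num
  | succ s ih =>
    intro D F hY hD hF
    have hK : 0 ≤ KK Y := by
      unfold KK
      have := Real.log_nonneg hY
      positivity
    have hD0 : (0 : ℝ) < D := by exact_mod_cast hD
    -- the part `n = 1`
    have hone : ∑ n ∈ F.filter (fun n => n = 1), 1 / (n.totient : ℝ) ≤ (KK Y + 1) ^ s * tau (s + 1 + 1) D / D := by
      rcases (F.filter (fun n => n = 1)).eq_empty_or_nonempty with h | ⟨n, hn⟩
      · rw [h, sum_empty]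
        positivity
      · obtain ⟨hnF, rfl⟩ := mem_filter.1 hn
        have hD1 : D = 1 := by simpa using (hF 1 hnF).2.2.2
        subst hD1
        have h5 : ∑ n ∈ F.filter (fun n => n = 1), 1 / (n.totient : ℝ) ≤ ∑ n ∈ ({1} : Finset ℕ), 1 / (n.totient : ℝ) :=
          sum_le_sum_of_subset_of_nonneg (fun n hn => by simpa using (mem_filter.1 hn).2) (fun _ _ _ => by positivity)
        refine h5.trans ?_
        rw [sum_singleton]
        have h6 : (1 : ℝ) ≤ tau (s + 1 + 1) 1 := by exact_mod_cast hTAU.2.2.1 (s + 1) 1 one_ne_zero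
        have h7 : (1 : ℝ) ≤ (KK Y + 1) ^ s := one_le_pow₀ (by linarith)
        simp only [Nat.totient_one, Nat.cast_one, div_one]
        nlinarith
    -- the rest
    have hrest : ∑ n ∈ F.filter (fun n => ¬ n = 1), 1 / (n.totient : ℝ) ≤ KK Y * ((KK Y + 1) ^ s * tau (s + 1 + 1) D / D) := by
      have hmaps : ∀ n ∈ F.filter (fun n => ¬ n = 1), Nat.gcd D (USD_T n).totient ∈ D.divisors := by
        intro n _
        exact Nat.mem_divisors.2 ⟨Nat.gcd_dvd_left _ _, by omega⟩
      rw [← sum_fiberwise_of_maps_to hmaps]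
      have hd : ∀ d ∈ D.divisors, ∑ n ∈ (F.filter (fun n => ¬ n = 1)).filter (fun n => Nat.gcd D (USD_T n).totient = d),
          1 / (n.totient : ℝ) ≤ KK Y * ((KK Y + 1) ^ s / D) * (tau (s + 1) (D / d) : ℝ) := by
        intro d hdD
        obtain ⟨e, he⟩ := Nat.dvd_of_mem_divisors hdD
        have hd1 : 1 ≤ d := Nat.pos_of_mem_divisors hdD
        have he1 : 1 ≤ e := by
          rcases Nat.eq_zero_or_pos e with h | h
          · rw [h, mul_zero] at he
            omega
          · exact h
        have hde : D / d = e := by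
          rw [he]
          exact Nat.mul_div_cancel_left _ hd1
        obtain ⟨G, hG⟩ : ∃ G, G = (F.filter (fun n => ¬ n = 1)).filter (fun n => Nat.gcd D (USD_T n).totient = d) := ⟨_, rfl⟩
        rw [← hG]
        have hGm : ∀ n ∈ G, n ∈ F ∧ n ≠ 0 ∧ n ≠ 1 ∧ Nat.gcd D (USD_T n).totient = d := by
          intro n hn
          rw [hG] at hn
          obtain ⟨h1, h2⟩ := mem_filter.1 hn
          obtain ⟨h3, h4⟩ := mem_filter.1 h1
          have := (hF n h3).1
          exact ⟨h3, by omega, h4, h2⟩
        have hp := USD_prod G (fun n hn => ⟨(hGm n hn).2.1, (hGm n hn).2.2.1⟩)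
        have h1 : ∑ t ∈ G.image USD_T, 1 / (t.totient : ℝ) ≤ KK Y / d := by
          refine hPPW Y d _ hY hd1 ?_
          intro t ht
          obtain ⟨n, hn, rfl⟩ := mem_image.1 ht
          obtain ⟨g1, g2, g3, g4⟩ := hGm n hn
          obtain ⟨k1, k2, k3, k4, k5⟩ := USD_split n g2 g3
          refine ⟨k3, ?_, ?_⟩
          · have h2 : USD_T n ≤ n := Nat.le_of_dvd (by omega) ⟨_, k1.symm⟩
            exact (by exact_mod_cast h2 : (USD_T n : ℝ) ≤ n).trans (hF n g1).2.1
          · rw [← g4]
            exact Nat.gcd_dvd_right _ _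
        have h2 : ∑ m ∈ G.image USD_N, 1 / (m.totient : ℝ) ≤ (KK Y + 1) ^ s * tau (s + 1) e / e := by
          refine ih e _ hY he1 ?_
          intro m hm
          obtain ⟨n, hn, rfl⟩ := mem_image.1 hm
          obtain ⟨g1, g2, g3, g4⟩ := hGm n hn
          obtain ⟨k1, k2, k3, k4, k5⟩ := USD_split n g2 g3
          obtain ⟨-, f2, f3, f4⟩ := hF n g1
          refine ⟨k4, ?_, by omega, ?_⟩
          · have h2 : USD_N n ≤ n := Nat.le_of_dvd (by omega) ⟨_, by rw [mul_comm]; exact k1.symm⟩
            exact (by exact_mod_cast h2 : (USD_N n : ℝ) ≤ n).trans f2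
          · have h3 : n.totient = (USD_T n).totient * (USD_N n).totient := by
              conv_lhs => rw [← k1]
              exact Nat.totient_mul k2
            rw [h3] at f4
            obtain ⟨c, hc⟩ : d ∣ (USD_T n).totient := by
              rw [← g4]
              exact Nat.gcd_dvd_right _ _
            have hcop : Nat.Coprime e c := by
              have h5 : Nat.gcd (d * e) (d * c) = d := by rw [← he, ← hc]; exact g4
              rw [Nat.gcd_mul_left] at h5
              exact Nat.eq_of_mul_eq_mul_left hd1 (by rw [h5, mul_one])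
            rw [he, hc, mul_assoc] at f4
            exact hcop.dvd_of_dvd_mul_left (Nat.dvd_of_mul_dvd_mul_left hd1 f4)
        have h0 : 0 ≤ ∑ m ∈ G.image USD_N, 1 / (m.totient : ℝ) := sum_nonneg fun _ _ => by positivity
        have hdR : (0 : ℝ) < d := by exact_mod_cast hd1
        have heR : (0 : ℝ) < e := by exact_mod_cast he1
        refine hp.trans ((mul_le_mul h1 h2 h0 (by positivity)).trans (le_of_eq ?_))
        rw [hde, he]
        push_cast
        field_simp
      refine (sum_le_sum hd).trans (le_of_eq ?_)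
      rw [← mul_sum]
      have h8 : ∑ d ∈ D.divisors, (tau (s + 1) (D / d) : ℝ) = tau (s + 1 + 1) D := by
        rw [Nat.sum_div_divisors D (fun x => (tau (s + 1) x : ℝ))]
        show _ = ((∑ d ∈ D.divisors, tau (s + 1) d : ℕ) : ℝ)
        push_cast
        rfl
      rw [h8]
      ring
    rw [← sum_filter_add_sum_filter_not F (fun n => n = 1)]
    refine (add_le_add hone hrest).trans (le_of_eq ?_)
    rw [pow_succ]
    ring

end Pool.Agent.PHN
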