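import Pool.Agent.helper40.PHN.TAU
import Pool.Agent.helper21.PHN.TSM
import Pool.Agent.helper99.PHN.TSQ
import Pool.Agent.helper88.PHN.PPC
import Pool.Agent.helper76.PHN.PPW
import Pool.Agent.helper50.PHN.USD
import Pool.Agent.helper26.PHN.DQB
import Pool.Agent.helper99.PHN.WOM
import Pool.Agent.helper27.PHN.C2I
import Pool.Agent.helper73.PHN.SMV
import Pool.Agent.helper56.PHN.EXM
import Pool.Agent.helper56.PHN.RNK
import Pool.Agent.helper58.PHN.GGB
import Pool.Agent.helper81.PHN.GBB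
import Pool.Agent.helper73.PHN.NUM
import Pool.Agent.helper56.PHN.DBB
import Pool.Agent.helper60.PHN.C2B
import Pool.Agent.helper80.PHN.C1B
import Pool.Agent.helper80.PHN.ABB
import Pool.Agent.helper76.PHN.MSH
import Pool.Agent.helper88.PHN.MAV
import Pool.Agent.helper50.PHN.CLM
import Pool.Agent.helper90.PHN.CLA
import Pool.Agent.helper87.PHN.UUD
import Pool.Agent.helper99.PHN.INI
import Pool.Agent.helper2.PHN.ALP
import Pool.Agent.helper50.PHN.STA
import Pool.Agent.helper28.PHN.STC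
import Pool.Agent.helper39.PHN.PRI
import Pool.Agent.helper19.PHN.STB
import Pool.Agent.helper76.PHN.STP
import Pool.Agent.helper88.PHN.DIS
import Pool.Agent.helper58.PHN.FIN
import Pool.Agent.helper93.PHN.CPT

set_option autoImplicit false

namespace Pool.Agent.PHN

theorem aTAU : TAU_stmt := TAU
theorem aTSM : TSM_stmt := TSM
theorem aTSQ : TSQ_stmt := TSQ aTAU aTSM
theorem aPPC : PPC_stmt := PPC
theorem aPPW : PPW_stmt := PPW aPPC
theorem aUSD : USD_stmt := USD aTAU aPPW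
theorem aDQB : DQB_stmt := DQB aTAU aTSQ aUSD
theorem aWOM : WOM_stmt := WOM aTAU aTSQ
theorem aC2I : C2I_stmt := C2I aPPW aWOM
theorem aSMV : SMV_stmt := SMV
theorem aEXM : EXM_stmt := EXM
theorem aRNK : RNK_stmt := RNK aSMV aEXM aPPC
theorem aGGB : GGB_stmt := GGB
theorem aGBB : GBB_stmt := GBB aGGB
theorem aNUM : NUM_stmt := NUM
theorem aDBB : DBB_stmt := DBB aDQB aGBB aNUM
theorem aC2B : C2B_stmt := C2B aC2I aGBB aNUM
theorem aC1B : C1B_stmt := C1B aRNK aGBB
theorem aABB : ABB_stmt := ABB aRNK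
theorem aMSH : MSH_stmt := MSH
theorem aMAV : MAV_stmt := MAV aMSH
theorem aCLM : CLM_stmt := CLM
theorem aCLA : CLA_stmt := CLA
theorem aUUD : UUD_stmt := UUD
theorem aINI : INI_stmt := INI aUUD aCLM
theorem aALP : ALP_stmt := ALP aUUD aMAV
theorem aSTA : STA_stmt := STA aALP aMAV aUUD
theorem aSTC : STC_stmt := STC aSTA aUUD aMAV aCLA
theorem aPRI : PRI_stmt := PRI
theorem aSTB : STB_stmt := STB aSTA aALP aUUD aMAV aCLA aPRI
theorem aSTP : STP_stmt := STP aSTA aSTC aSTB aALP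
theorem aDIS : DIS_stmt := DIS aINI aSTP aUUD
theorem aFIN : FIN_stmt := FIN aDBB aC2B aC1B aABB aDIS
theorem aCPT : CPT_stmt := CPT aFIN

end Pool.Agent.PHN
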