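import Mathlib
import Pool.Agent.Lib.PrimeSums

/-!
# Project PHN (MP_f10000_nt): the congruence form of Q1 is false. Specification, rows `phn:X`

THEOREM. For every `W ≥ 1` there is `N` such that for all integers `r(n)`, all `b` and all `M` some `a ≡ b (mod W)` satisfies `φ(n) ∤ r(n) + a` for all
`n` with `N < n ≤ M`. So for a dense set of profinite integers `a` one has `φ(n) ∣ n + a` for only finitely many `n`. Page: /team-store/C6_MP_f10000_nt_helper50.md.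

RULES. Row `X`: file `Pool/Agent/<seat>/PHN/X.lean`, `import Pool.Agent.helper50.PHN.Spec`, `set_option autoImplicit false`, `namespace Pool.Agent.PHN`,
`open Finset`, `theorem X (h1 : Y_stmt) ... : X_stmt` (other statements of this file may be hypotheses, as listed in the lock note; no circles). Auxiliary lemmas prefixed `X_`.
No `native_decide`, no double quotes, no `macro`/`notation`. Land, lock note DONE, one line to helper50. Everything is elementary, sums over finite sets.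
-/

set_option autoImplicit false

namespace Pool.Agent.PHN

open Finset

/-! ## 0. Notions -/

/-- largest prime factor (`0` for `0` and `1`) -/
def lp (m : ℕ) : ℕ := m.primeFactors.sup id

/-- `δ_q = q ^ (-99/100)` -/
noncomputable def dl (q : ℕ) : ℝ := (q : ℝ) ^ (-(99 / 100) : ℝ)

/-- `∏ (1 + 2 δ_p)` over the primes `p ≥ q0` of `m` -/
noncomputable def gg (δ : ℕ → ℝ) (q0 m : ℕ) : ℝ := ∏ p ∈ m.primeFactors.filter (fun p => q0 ≤ p), (1 + 2 * δ p)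

/-- the `j`-fold divisor function -/
def tau : ℕ → ℕ → ℕ
  | 0, n => if n = 1 then 1 else 0
  | j + 1, n => ∑ d ∈ n.divisors, tau j d

/-- the block of `n`: `2 ^ k ≤ P < 2 ^ (k + 1)` for the largest prime factor `P` of `φ(n)` -/
def bl (n : ℕ) : ℕ := Nat.log 2 (lp n.totient)

/-- `Y_k` -/
noncomputable def YY (k : ℕ) : ℝ := Real.exp (((k : ℝ) + 1) ^ 8)

/-- `R_k`: `R ^ 4 ≤ k < (R + 1) ^ 4` -/
def RR (k : ℕ) : ℕ := Nat.sqrt (Nat.sqrt k)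

/-- `K = 2 (1 + log Y)` -/
noncomputable def KK (Y : ℝ) : ℝ := 2 * (1 + Real.log Y)

/-! ## A. Divisor functions -/

/-- **TAU** (short-medium). By induction on `j`. Submultiplicativity: `d ∣ a b` gives `d = e f` with `e = gcd d a ∣ a`, `f ∣ b` (or `Nat.divisors_mul`, pointwise product), so `∑_(d ∣ ab) τ_j(d) ≤ ∑_(e ∣ a) ∑_(f ∣ b) τ_j(e f)`. -/
def TAU_stmt : Prop :=
  (∀ j a b : ℕ, a ≠ 0 → b ≠ 0 → tau j (a * b) ≤ tau j a * tau j b) ∧ (∀ j p : ℕ, p.Prime → tau j p = j) ∧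
  (∀ j n : ℕ, n ≠ 0 → 1 ≤ tau (j + 1) n) ∧ (∀ n : ℕ, n ≠ 0 → tau 1 n = 1) ∧ ∀ n : ℕ, tau 2 n = n.divisors.card

/-- **TSM** (short-medium). Induction on `j`: `∑_(d ∈ D) τ_(j+1)(d)/d = ∑_(d ∈ D) ∑_(e ∣ d) (τ_j(e)/e) (1/(d/e)) ≤ (∑_(e ≤ Y) τ_j(e)/e) (∑_(f ≤ Y) 1/f)` (`(d, e) ↦ (e, d/e)` is injective), harmonic sum
`≤ 1 + log Y` (`harmonic_le_one_add_log`). -/
def TSM_stmt : Prop := ∀ (j : ℕ) (Y : ℝ) (D : Finset ℕ), 1 ≤ Y → (∀ d ∈ D, 1 ≤ d ∧ (d : ℝ) ≤ Y) →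
  ∑ d ∈ D, (tau j d : ℝ) / d ≤ (1 + Real.log Y) ^ j

/-- **TSQ** (short-medium; from TAU, TSM). Prove `∑_(d ∈ D) τ_i(d) τ_j(d)/d ≤ ((1 + log Y)^j)^i` by induction on `i` (for `D` = all `d ≤ Y`): `τ_(i+1)(d) = ∑_(e ∣ d) τ_i(e)`, `τ_j(d) ≤ τ_j(e) τ_j(d/e)`. -/
def TSQ_stmt : Prop := ∀ (j : ℕ) (Y : ℝ) (D : Finset ℕ), 1 ≤ Y → (∀ d ∈ D, 1 ≤ d ∧ (d : ℝ) ≤ Y) →
  ∑ d ∈ D, (tau j d : ℝ) ^ 2 / d ≤ (1 + Real.log Y) ^ (j * j)

/-! ## B. Sums over `n` with conditions on `φ(n)` -/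

/-- **PPC** (short-medium). `φ` takes each value at most twice on prime powers: on the primes it is injective (`v = p - 1`), and on the `p ^ j` with `j ≥ 2` too: if `p^(j-1) (p-1) = q^(i-1) (q-1)`, `i, j ≥ 2`, `p ≠ q`, then `p ∣ q - 1` and
`q ∣ p - 1`, impossible; for `p = q` the exponents agree. -/
def PPC_stmt : Prop := ∀ (T : Finset ℕ) (f : ℕ → ℝ), (∀ t ∈ T, IsPrimePow t) → (∀ v, 0 ≤ f v) →
  ∑ t ∈ T, f t.totient ≤ 2 * ∑ v ∈ T.image Nat.totient, f v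

/-- **PPW** (short; from PPC). `φ(t) = d e`, `e ≤ Y`, so the sum is at most `2 ∑_(e ≤ Y) 1/(d e)`. -/
def PPW_stmt : Prop := ∀ (Y : ℝ) (d : ℕ) (T : Finset ℕ), 1 ≤ Y → 1 ≤ d →
  (∀ t ∈ T, IsPrimePow t ∧ (t : ℝ) ≤ Y ∧ d ∣ t.totient) → ∑ t ∈ T, 1 / (t.totient : ℝ) ≤ KK Y / d

/-- **USD** (medium; from TAU, PPW). Induction on `s`. `s = 0`: `n = 1`, `D = 1`. Step: for `n ≠ 1` let `t = p ^ (n.factorization p)`, `p = n.minFac`, `n = t n'` (coprime), `d = gcd D φ(t)`; `D/d ∣ φ(n')`. `n ↦ (d, t, n')` is injective, so the sum over `n ≠ 1` is at most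
`∑_(d ∣ D) (K/d) (K+1)^s τ_(s+1)(D/d)/(D/d) = K (K+1)^s τ_(s+2)(D)/D` (`Nat.sum_div_divisors`); `n = 1` contributes only if `D = 1`, at most `1 ≤ (K+1)^s τ_(s+2)(D)/D`. -/
def USD_stmt : Prop := ∀ (Y : ℝ) (s D : ℕ) (F : Finset ℕ), 1 ≤ Y → 1 ≤ D →
  (∀ n ∈ F, 1 ≤ n ∧ (n : ℝ) ≤ Y ∧ n.primeFactors.card ≤ s ∧ D ∣ n.totient) →
    ∑ n ∈ F, 1 / (n.totient : ℝ) ≤ (KK Y + 1) ^ s * tau (s + 1) D / D

/-- **DQB** (short-medium; from TAU, TSQ, USD). For `g = gcd(φ(a), φ(b))`, `q ∣ g`: `g = q (g/q) ≤ ∑_(e ∣ g/q) q e` (`e = g/q` is one of the terms), so the sum is at most `∑_(e ≤ Y) q e (∑_(n ∈ F, e q ∣ φ(n)) 1/φ(n))^2`; USD and `τ_(R+1)(e q) ≤ (R+1) τ_(R+1)(e)`: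
`≤ ∑_e q e ((K+1)^R (R+1) τ_(R+1)(e)/(e q))^2`, then TSQ. -/
def DQB_stmt : Prop := ∀ (Y : ℝ) (R q : ℕ) (F : Finset ℕ), 1 ≤ Y → q.Prime →
  (∀ n ∈ F, 1 ≤ n ∧ (n : ℝ) ≤ Y ∧ n.primeFactors.card ≤ R ∧ q ∣ n.totient) →
    ∑ a ∈ F, ∑ b ∈ F, (Nat.gcd a.totient b.totient : ℝ) / (a.totient * b.totient) ≤
      (KK Y + 1) ^ (2 * R) * (R + 1) ^ 2 * (1 + Real.log Y) ^ ((R + 1) * (R + 1)) / q

/-- **WOM** (short-medium; from TAU, TSQ). `1/φ(n) ≤ 2^ω(n)/n` (`φ(n) = n ∏ (1 - 1/p)`), `2^ω(n) ≤ τ_2(n)` (the products of the subsets of the prime factors are divisors), so the sum is at most `∑ τ_2(n)^2/n`. -/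
def WOM_stmt : Prop := ∀ (Y : ℝ) (F : Finset ℕ), 1 ≤ Y → (∀ n ∈ F, 1 ≤ n ∧ (n : ℝ) ≤ Y) →
  ∑ n ∈ F, (2 : ℝ) ^ n.primeFactors.card / n.totient ≤ (1 + Real.log Y) ^ 4

/-- **C2I** (short-medium; from PPW, WOM). `φ(n) = ∏ φ(p^v)`, so `q ∣ φ(t)` for some `t = p ^ (n.factorization p)`; `n = t n'`, `φ(n) = φ(t) φ(n')`, `ω(n) = 1 + ω(n')`; `n ↦ (t, n')` is injective: at most `2 (K/q) (1 + log Y)^4`. -/
def C2I_stmt : Prop := ∀ (Y : ℝ) (q : ℕ) (F : Finset ℕ), 1 ≤ Y → q.Prime →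
  (∀ n ∈ F, 1 ≤ n ∧ (n : ℝ) ≤ Y ∧ q ∣ n.totient) →
    ∑ n ∈ F, (2 : ℝ) ^ n.primeFactors.card / n.totient ≤ 4 * (1 + Real.log Y) ^ 5 / q

/-- **SMV** (short-medium; Lib/PrimeSums). `σ = 1 - η`, `η = 1/(2(k+1))`: `sum_smooth_le`; for a prime `p < 2^(k+1)`: `p^(-σ) = p^η/p ≤ √2/p ≤ 3/4`, `inv_one_sub_le_exp`, `sum_inv_le`: the product is at most
`exp(4 √2 (log log 2^(k+1) + 4)) ≤ exp(6 (log (k+1) + 4))` (`k = 0`: the product is empty). -/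
def SMV_stmt : Prop := ∃ C : ℝ, 1 ≤ C ∧ ∀ (k : ℕ) (V : Finset ℕ), (∀ v ∈ V, v ∈ (2 ^ (k + 1)).smoothNumbers) →
  ∑ v ∈ V, (v : ℝ) ^ (1 / (2 * ((k : ℝ) + 1)) - 1) ≤ C * ((k : ℝ) + 1) ^ 6

/-- **EXM** (short-medium). Let `P` be a set of primes; by induction on `P` (`Finset.induction_on`), for `F` with all prime factors in `P`: `n = p^v n'` with `p ∤ n'`: `∑_(n ∈ F) f(n) ≤ (1 + ∑_(t ∈ T, t = p^i, i ≥ 1) f(t)) ∑_(n' ∈ F') f(n')`,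
`F'` = the set of the `n'`; `1 + x ≤ exp x`; the sets `{t ∈ T : t = p^i, i ≥ 1}` are disjoint for different `p`. -/
def EXM_stmt : Prop := ∀ (f : ℕ → ℝ) (F T : Finset ℕ), (∀ n, 0 ≤ f n) → f 1 = 1 →
  (∀ a b : ℕ, Nat.Coprime a b → f (a * b) = f a * f b) →
  (∀ n ∈ F, n ≠ 0 ∧ ∀ p ∈ n.primeFactors, p ^ n.factorization p ∈ T) → ∑ n ∈ F, f n ≤ Real.exp (∑ t ∈ T, f t)

/-- **RNK** (short-medium; from SMV, EXM, PPC). EXM with `f(n) = n^η/φ(n)`, `T` = the set of the `p ^ n.factorization p` (prime powers, `φ(t) ∣ φ(n)` is smooth); `t ≤ 2 φ(t)` gives `t^η ≤ √2 φ(t)^η ≤ 2 φ(t)^η`; PPC and SMV. -/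
def RNK_stmt : Prop := ∃ C : ℝ, 1 ≤ C ∧ ∀ (k : ℕ) (F : Finset ℕ),
  (∀ n ∈ F, 1 ≤ n ∧ n.totient ∈ (2 ^ (k + 1)).smoothNumbers) →
    ∑ n ∈ F, (n : ℝ) ^ (1 / (2 * ((k : ℝ) + 1))) / n.totient ≤ Real.exp (C * ((k : ℝ) + 1) ^ 6)

/-! ## C. The distortion factor -/

/-- **GGB** (short-medium). `gg ≤ exp(2 ∑_(p ∣ m) p^(-99/100))`. With `s = ω(m)`, `2^s ≤ m`: the primes `p ≤ s` contribute at most `∑_(i=1)^s i^(-99/100) ≤ 100 s^(1/100)` (induction on `s`: concavity), the others at most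
`s · s^(-99/100)`; `202 s^(1/100) ≤ 202 (log m/log 2)^(1/100) ≤ 210 (log m)^(1/100)`. -/
def GGB_stmt : Prop := ∀ q0 m : ℕ, 1 ≤ m → gg dl q0 m ≤ Real.exp (210 * Real.log m ^ (1 / 100 : ℝ))

/-- **GBB** (short-medium; from GGB). First part: `log m ≤ (k+1)^8`, `210 (k+1)^(8/100) ≤ (log 2/2) R`, `R + 1 > k^(1/4)`. Second: `L = log n > (k+1)^8`, `210 L^(1/100) ≤ L^(7/8)/4 ≤ L/(4(k+1))` for large `L`. -/
def GBB_stmt : Prop := ∃ k₁ : ℕ, ∀ k ≥ k₁, ∀ q0 m : ℕ, 1 ≤ m →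
  ((m : ℝ) ≤ YY k → gg dl q0 m ≤ (2 : ℝ) ^ ((RR k : ℝ) / 2)) ∧
  ∀ n : ℕ, YY k < n → m ≤ n → gg dl q0 m ≤ (n : ℝ) ^ (1 / (4 * ((k : ℝ) + 1)))

/-! ## D. Blocks -/

/-- **NUM** (short-medium; numbers). `R = RR k`, `k^(1/4) - 1 < R ≤ k^(1/4)`. The logarithm of the first left side is `O(√k log k)`, of the second `O(log k)`. -/
def NUM_stmt : Prop := ∃ k₁ : ℕ, ∀ k ≥ k₁,
  (2 : ℝ) ^ (RR k : ℝ) * ((2 * (1 + ((k : ℝ) + 1) ^ 8) + 1) ^ (2 * RR k) * ((RR k : ℝ) + 1) ^ 2 *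
    (1 + ((k : ℝ) + 1) ^ 8) ^ ((RR k + 1) * (RR k + 1))) * ((k : ℝ) + 1) ^ 2 ≤ (2 : ℝ) ^ ((k : ℝ) / 100) ∧
  4 * (1 + ((k : ℝ) + 1) ^ 8) ^ 5 * ((k : ℝ) + 1) ^ 2 ≤ (2 : ℝ) ^ ((RR k : ℝ) / 2)

/-- The double sum of the block. -/
noncomputable def DS (δ : ℕ → ℝ) (q0 : ℕ) (m : ℕ → ℕ) (F : Finset ℕ) (q : ℕ) : ℝ :=
  ∑ i ∈ F.filter (fun i => lp (m i) = q), ∑ j ∈ F.filter (fun j => lp (m j) = q),
    gg δ q0 (m i) * gg δ q0 (m j) * (Nat.gcd (m i) (m j) : ℝ) / (q * δ q * (m i * m j))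

/-- **DBB** (short-medium; from DQB, GBB, NUM). For every prime `q` of the block: GBB, DQB with `Y = YY k` (`log Y = (k+1)^8`): `DS ≤ 2^R · X/(q · δ_q · q)`, `q δ_q q = q^(101/100) ≥ 2^k 2^(k/100)`; not a prime: the sum is empty (for `k ≥ 1` `lp ≥ 2` is prime). There are `2^k` numbers `q`. -/
def DBB_stmt : Prop := ∃ k₁ : ℕ, ∀ k ≥ k₁, ∀ (q0 : ℕ) (F : Finset ℕ),
  (∀ n ∈ F, 1 ≤ n ∧ bl n = k ∧ (n : ℝ) ≤ YY k ∧ n.primeFactors.card ≤ RR k) →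
    ∑ q ∈ Ico (2 ^ k) (2 ^ (k + 1)), DS dl q0 Nat.totient F q ≤ 1 / ((k : ℝ) + 1) ^ 2

/-- **C2B** (short-medium; from C2I, GBB, NUM). `gg ≤ 2^(R/2)`, `1 ≤ 2^ω(n) 2^(-R)`; C2I for every prime `q` of the block, `∑ 1/q ≤ 1`. -/
def C2B_stmt : Prop := ∃ k₁ : ℕ, ∀ k ≥ k₁, ∀ (q0 : ℕ) (F : Finset ℕ),
  (∀ n ∈ F, 1 ≤ n ∧ bl n = k ∧ (n : ℝ) ≤ YY k ∧ RR k < n.primeFactors.card) →
    ∑ n ∈ F, gg dl q0 n.totient / n.totient ≤ 1 / ((k : ℝ) + 1) ^ 2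

/-- **C1B** (short-medium; from RNK, GBB). `gg ≤ n^(η/2) ≤ n^η (YY k)^(-η/2)`, `η = 1/(2(k+1))`, `(YY k)^(-η/2) = exp(-(k+1)^7/4)`; `φ(n)` is smooth as `lp < 2^(k+1)`; `-(k+1)^7/4 + C (k+1)^6 ≤ -2 log(k+1)` for large `k`. -/
def C1B_stmt : Prop := ∃ k₁ : ℕ, ∀ k ≥ k₁, ∀ (q0 : ℕ) (F : Finset ℕ),
  (∀ n ∈ F, 1 ≤ n ∧ bl n = k ∧ YY k < n) →
    ∑ n ∈ F, gg dl q0 n.totient / n.totient ≤ 1 / ((k : ℝ) + 1) ^ 2

/-- **ABB** (short-medium; from RNK). `lp φ(n) < 2^k0`, so `gg dl (2^k0) φ(n) = 1` (empty product), `1 ≤ n^η N^(-η)`, RNK with `k = k0 - 1` (`k0 = 0`: no such `n`). -/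
def ABB_stmt : Prop := ∀ (k₀ : ℕ) (ε : ℝ), 0 < ε → ∃ N : ℕ, ∀ F : Finset ℕ, (∀ n ∈ F, N < n ∧ bl n < k₀) →
  ∑ n ∈ F, gg dl (2 ^ k₀) n.totient / n.totient ≤ ε

/-! ## E. The distortion method -/

/-- mean over a period -/
noncomputable def mu (T : ℕ) (f : ℤ → ℝ) : ℝ := (∑ x ∈ range T, f x) / T

/-- average over the shifts by `0, u, ..., (Q - 1) u` -/
noncomputable def AV (Q u : ℕ) (h : ℤ → ℝ) (x : ℤ) : ℝ := (∑ t ∈ range Q, h (x + t * u)) / Q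

/-- the indicator function of the class `n ∣ x + a` -/
noncomputable def ind (n : ℕ) (a x : ℤ) : ℝ := if (n : ℤ) ∣ x + a then 1 else 0

/-- `T` without its `q`-part -/
def uu (T q : ℕ) : ℕ := T / q ^ T.factorization q

/-- **MSH** (short). A sum over a full period of a periodic function does not change under translation (`s = 1` by `Finset.sum_range_succ`, `sum_range_succ'`; then induction over `s`; or `Function.Periodic`, `ZMod T`). -/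
def MSH_stmt : Prop := ∀ (T : ℕ) (f : ℤ → ℝ) (s : ℤ), 1 ≤ T → (∀ x, f (x + T) = f x) →
  mu T (fun x => f (x + s)) = mu T f

/-- **MAV** (short-medium; from MSH). `mu (f h) = mu (f(x + t u) h(x + t u)) = mu (f(x) h(x + t u))` for every `t`, take the average. Invariance: `h (x + Q u) = h (x + T) = h x` (cyclic shift of the sum over `t`). -/
def MAV_stmt : Prop := ∀ (T Q u : ℕ) (f h : ℤ → ℝ), 1 ≤ T → Q * u = T → (∀ x, f (x + T) = f x) → (∀ x, h (x + T) = h x) →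
  (∀ x, AV Q u h (x + u) = AV Q u h x) ∧ (∀ x, AV Q u h (x + T) = AV Q u h x) ∧
  ((∀ x, f (x + u) = f x) → mu T (fun x => f x * h x) = mu T (fun x => f x * AV Q u h x))

/-- **CLM** (short). `n ∣ T`: exactly `T/n` of the `T` numbers lie in the class (`Int.Ico_filter_modEq_card`, or `Nat.count_modEq_card`). -/
def CLM_stmt : Prop := ∀ (T n : ℕ) (a : ℤ), 1 ≤ T → n ∣ T → mu T (ind n a) = 1 / n

/-- **CLA** (short-medium). `q ^ v` with `v = v_q(T)`, `u = T/q^v` is prime to `q`, `n' ∣ u`, `q^j ∣ q^v`. `n' q^j ∣ x + t u + a` iff `n' ∣ x + a` and `q^j ∣ (x + a) + t u`; `u` is a unit mod `q^j`: exactly `q^(v-j)` of the `t < q^v`. -/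
def CLA_stmt : Prop := ∀ (T q n' j : ℕ) (a x : ℤ), 1 ≤ T → q.Prime → ¬ q ∣ n' → n' * q ^ j ∣ T →
  AV (q ^ T.factorization q) (uu T q) (ind (n' * q ^ j) a) x = ind n' a x / (q : ℝ) ^ j

/-- The data: modulus `m i` and class `m i ∣ x + c i`, `i ∈ S`. -/
structure Sys where
  W : ℕ
  q0 : ℕ
  δ : ℕ → ℝ
  b : ℤ
  S : Finset ℕ
  m : ℕ → ℕ
  c : ℕ → ℤ
  good : Finset ℕ
  W1 : 1 ≤ W
  Wq : W < q0
  dpos : ∀ p, q0 ≤ p → 0 < δ p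
  dhalf : ∀ p, q0 ≤ p → δ p ≤ 1 / 2
  mpos : ∀ i ∈ S, 1 ≤ m i
  gS : good ⊆ S
  gl : ∀ i ∈ good, q0 ≤ lp (m i)

/-- the common period -/
def Sys.T (D : Sys) : ℕ := D.W * ∏ i ∈ D.S, D.m i

open Classical in
/-- the indicator function of the union of the good classes with largest prime factor `q` -/
noncomputable def Sys.iB (D : Sys) (q : ℕ) (x : ℤ) : ℝ :=
  if ∃ i ∈ D.good, lp (D.m i) = q ∧ (D.m i : ℤ) ∣ x + D.c i then 1 else 0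

/-- its density in the fibres -/
noncomputable def Sys.al (D : Sys) (q : ℕ) (x : ℤ) : ℝ := AV (q ^ D.T.factorization q) (uu D.T q) (D.iB q) x

open Classical in
/-- the new weight -/
noncomputable def Sys.nw (D : Sys) (q : ℕ) (w : ℤ → ℝ) (x : ℤ) : ℝ :=
  if D.al q x ≤ D.δ q then w x * (1 - D.iB q x) / (1 - D.al q x) else w x

/-- the invariants of a weight before the stage `q` -/
structure Inv (D : Sys) (q : ℕ) (w : ℤ → ℝ) : Prop where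
  nonneg : ∀ x, 0 ≤ w x
  per : ∀ x, w (x + D.T) = w x
  inv : ∀ p, p.Prime → q ≤ p → ∀ x, w (x + uu D.T p) = w x
  one : mu D.T w = 1
  supp : ∀ x, w x ≠ 0 → (D.W : ℤ) ∣ x - D.b
  cls : ∀ (n : ℕ) (a : ℤ), n ∣ D.T → (∀ p ∈ n.primeFactors, p < q) →
    mu D.T (fun x => w x * ind n a x) ≤ D.W * gg D.δ D.q0 n / n
  bad : ∀ p, p.Prime → D.q0 ≤ p → p < q → mu D.T (fun x => w x * D.iB p x) ≤ D.W * DS D.δ D.q0 D.m D.good p

/-- **UUD** (short). `u = T/q^v`: `q^v u = T`, `q ∤ u`; `n ∣ T`, `q ∤ n` imply `n ∣ u`; in particular `W ∣ u_p` for `p ≥ q0`, and `m i ∣ u_p` for `i ∈ S`, `lp (m i) < p`. -/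
def UUD_stmt : Prop := (∀ T q : ℕ, 1 ≤ T → q.Prime → q ^ T.factorization q * uu T q = T ∧ ¬ q ∣ uu T q ∧
    ∀ n, n ∣ T → ¬ q ∣ n → n ∣ uu T q) ∧
  ∀ D : Sys, 1 ≤ D.T ∧ D.W ∣ D.T ∧ (∀ i ∈ D.S, D.m i ∣ D.T) ∧
    (∀ p, p.Prime → D.q0 ≤ p → D.W ∣ uu D.T p) ∧
    (∀ i ∈ D.S, ∀ p, p.Prime → lp (D.m i) < p → D.m i ∣ uu D.T p) ∧
    ∀ i ∈ D.S, ∀ p ∈ (D.m i).primeFactors, p ≤ lp (D.m i)

/-- **INI** (short-medium; from UUD, CLM). `w x = W · ind W (-b) x`. `cls`: `w ≤ W`, `gg ≥ 1`. `bad` is void. -/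
def INI_stmt : Prop := ∀ D : Sys, Inv D D.q0 (fun x => D.W * ind D.W (-D.b) x)

/-- **ALP** (short-medium; from UUD, MAV). Properties of `iB` and `al`. `iB` is periodic and does not change under `u_p`, `p > q` (all moduli divide `T` resp. `u_p`), so the same holds for `al` (it is an average of shifts); `MAV` for `al (x + u_q)`. -/
def ALP_stmt : Prop := ∀ (D : Sys) (q : ℕ), q.Prime → D.q0 ≤ q →
  (∀ x, D.iB q (x + D.T) = D.iB q x ∧ (D.iB q x = 0 ∨ D.iB q x = 1)) ∧ (∀ x, D.al q (x + D.T) = D.al q x) ∧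
  (∀ p, p.Prime → q < p → ∀ x, D.iB q (x + uu D.T p) = D.iB q x) ∧
  (∀ p, p.Prime → q ≤ p → ∀ x, D.al q (x + uu D.T p) = D.al q x) ∧ ∀ x, 0 ≤ D.al q x ∧ D.al q x ≤ 1

/-- **STA** (medium; from ALP, MAV, UUD). `al ≤ δ ≤ 1/2` in the first case, `1/(1 - δ) ≤ 1 + 2δ`. Martingale: `nw = w · φ`, `φ = if al ≤ δ then (1 - iB)/(1 - al) else 1`; `w f` is invariant under `u_q`, so `mu (w f φ) = mu (w f AV φ)` and `AV φ = 1`
(`al` is constant on the fibres, `AV iB = al`). -/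
def STA_stmt : Prop := ∀ (D : Sys) (q : ℕ) (w : ℤ → ℝ), q.Prime → D.q0 ≤ q → Inv D q w →
  (∀ x, 0 ≤ D.nw q w x ∧ D.nw q w x ≤ (1 + 2 * D.δ q) * w x) ∧ (∀ x, D.nw q w (x + D.T) = D.nw q w x) ∧
  (∀ p, p.Prime → q + 1 ≤ p → ∀ x, D.nw q w (x + uu D.T p) = D.nw q w x) ∧
  ∀ f : ℤ → ℝ, (∀ x, f (x + D.T) = f x) → (∀ x, f (x + uu D.T q) = f x) →
    mu D.T (fun x => D.nw q w x * f x) = mu D.T (fun x => w x * f x)

/-- **STC** (short-medium; from STA, UUD, MAV, CLA). `q ∤ n`: `ind n a` is invariant under `u_q`, STA and `cls`. `n = n' q^j`, `j ≥ 1`, `q ∤ n'`: `nw ≤ (1 + 2δ) w`, `mu (w ind n) = mu (w AV(ind n)) = q^(-j) mu (w ind n')`, `cls` for `n'`, `gg n = (1 + 2 δ q) gg n'`. -/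
def STC_stmt : Prop := ∀ (D : Sys) (q : ℕ) (w : ℤ → ℝ), q.Prime → D.q0 ≤ q → Inv D q w →
  ∀ (n : ℕ) (a : ℤ), n ∣ D.T → (∀ p ∈ n.primeFactors, p < q + 1) →
    mu D.T (fun x => D.nw q w x * ind n a x) ≤ D.W * gg D.δ D.q0 n / n

/-- **PRI** (short-medium). The product of two class indicators is `0` or the indicator of a class modulo the lcm; `gg` is submultiplicative: `gg (lcm) ≤ gg · gg` (all factors are `≥ 1`); `1/lcm = gcd/(n n')`. -/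
def PRI_stmt : Prop := ∀ (D : Sys) (q : ℕ) (w : ℤ → ℝ), Inv D q w → ∀ (n n' : ℕ) (a a' : ℤ), 1 ≤ n → 1 ≤ n' → n ∣ D.T → n' ∣ D.T →
  (∀ p ∈ n.primeFactors, p < q) → (∀ p ∈ n'.primeFactors, p < q) →
    mu D.T (fun x => w x * (ind n a x * ind n' a' x)) ≤
      D.W * (gg D.δ D.q0 n * gg D.δ D.q0 n' * (Nat.gcd n n' : ℝ) / (n * n'))

/-- **STB** (medium; from STA, ALP, UUD, MAV, CLA, PRI). `nw · iB = w iB 1[al > δ]` (where `al ≤ δ` it is `0`: `iB (1 - iB) = 0`), so `mu (nw iB) = mu (w 1[al > δ] AV iB) = mu (w 1[al > δ] al) ≤ mu (w al^2)/δ`. `iB ≤ ∑_i ind (m i) (c i)` over the good `i` with `lp (m i) = q`, so `al ≤ ∑_i q^(-j_i) ind (m_i') (c i)`,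
`m i = m_i' q^(j_i)`, `j_i ≥ 1`; square and PRI; `q gcd(m_i', m_j') ≤ gcd(m i, m j)` (it divides it), `gg (m_i') ≤ gg (m i)`. -/
def STB_stmt : Prop := ∀ (D : Sys) (q : ℕ) (w : ℤ → ℝ), q.Prime → D.q0 ≤ q → Inv D q w →
  mu D.T (fun x => D.nw q w x * D.iB q x) ≤ D.W * DS D.δ D.q0 D.m D.good q

/-- **STP** (short; from STA, STC, STB, ALP). `bad` for `p < q`: `iB p` is invariant under `u_q` (ALP for `p`). Not a prime `q`: `p < q + 1` and `p` prime imply `p < q`; `q ≤ p` and `p` prime imply `q + 1 ≤ p`. -/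
def STP_stmt : Prop := ∀ (D : Sys) (q : ℕ) (w : ℤ → ℝ), D.q0 ≤ q → Inv D q w →
  ∃ w' : ℤ → ℝ, Inv D (q + 1) w'

/-- **DIS** (short-medium; from INI, STP, UUD). Induction: a weight with `Inv D Q w` for some `Q` larger than `q0` and all primes of `T`. `1 = mu w ≤ mu (w 1[uncovered]) + ∑_(i ∈ S \ good) mu (w ind (m i) (c i)) + ∑_(q < Q) mu (w iB q)` (only primes `q ≥ q0` occur as `lp (m i)`, `i` good), so there is `x` with `w x ≠ 0`, uncovered. -/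
def DIS_stmt : Prop := ∀ (D : Sys) (Q : ℕ), (∀ i ∈ D.good, lp (D.m i) < Q) →
  D.W * (∑ i ∈ D.S \ D.good, gg D.δ D.q0 (D.m i) / D.m i + ∑ q ∈ Ico D.q0 Q, DS D.δ D.q0 D.m D.good q) < 1 →
    ∃ x : ℤ, (D.W : ℤ) ∣ x - D.b ∧ ∀ i ∈ D.S, ¬ (D.m i : ℤ) ∣ x + D.c i

/-! ## F. The theorem -/

/-- **FIN** (medium; from DBB, C2B, C1B, ABB, DIS). `q0 = 2^k₀`, `k₀ ≥ 6 W + 2` and `≥` the `k₁` of the rows; `N` from ABB with `ε = 1/(4 W)`, `N ≥ 2`. `S = Ioc N M`, `good` = the `n` with `k = bl n ≥ k₀`, `n ≤ YY k`, `ω(n) ≤ RR k`. The classes which are not good: ABB, C1B, C2B for every block;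
the double sum: `DBB` for every block (`Ico (2^k₀) (2^K)` is the union of the blocks). `∑_(k ≥ k₀) 1/(k+1)^2 ≤ 1/k₀`: total `≤ W (1/(4W) + 3/k₀) < 1`. `dl p ≤ 1/2` for `p ≥ 4`. -/
def FIN_stmt : Prop := ∀ W : ℕ, 1 ≤ W → ∃ N : ℕ, ∀ (r : ℕ → ℤ) (b : ℤ) (M : ℕ),
  ∃ a : ℤ, (W : ℤ) ∣ a - b ∧ ∀ n ∈ Ioc N M, ¬ (n.totient : ℤ) ∣ r n + a

/-- **CPT** (short-medium; from FIN). Compactness: the set of the `a` in `ZMod (j !)` which satisfy the conditions for `n ≤ j` (`φ(n) ∣ j!`, and `W ∣ j!` for `j ≥ W`) is finite and nonempty for `j ≥ W`, the projections are compatible (`nonempty_sections_of_finite_inverse_system`, or König by hand: choose residues one after the other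
with infinitely many extensions). -/
def CPT_stmt : Prop := ∀ W : ℕ, 1 ≤ W → ∃ N : ℕ, ∀ (r : ℕ → ℤ) (b : ℤ), ∃ a : ℕ → ℤ,
  (∀ i j : ℕ, i ≤ j → (i.factorial : ℤ) ∣ a j - a i) ∧ (∀ j, W ≤ j → (W : ℤ) ∣ a j - b) ∧
    ∀ n j : ℕ, N < n → n ≤ j → ¬ (n.totient : ℤ) ∣ r n + a j

end Pool.Agent.PHN
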